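import Pool.Agent.W387.R.Stm

/-! RA-F3 (helper168, for helper387): the map to the group of the path -/

set_option autoImplicit false

namespace Pool.Agent.W168.RA

open Pool.Agent.W387.RA

/-- adjacent generators of a right-angled Artin group commute -/
theorem raag_comm {α : Type} (Γ : SimpleGraph α) (a b : α) (h : Γ.Adj a b) :
    (PresentedGroup.of a : RAAG Γ) * PresentedGroup.of b =
      PresentedGroup.of b * PresentedGroup.of a := by
  have h1 : (PresentedGroup.mk (raagRels Γ) (FreeGroup.of a * FreeGroup.of b *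
      (FreeGroup.of a)⁻¹ * (FreeGroup.of b)⁻¹)) = 1 :=
    PresentedGroup.one_of_mem ⟨a, b, h, rfl⟩
  simp only [map_mul, map_inv] at h1
  have h2 := mul_inv_eq_one.1 h1
  exact mul_inv_eq_iff_eq_mul.1 h2

theorem p4_adj (i j : Fin 4) (h : i.val + 1 = j.val) : P4.Adj i j := by
  unfold P4
  rw [SimpleGraph.fromRel_adj]
  refine ⟨?_, Or.inl h⟩
  intro h2
  rw [h2] at h
  omega

theorem c01 : kk 0 * kk 1 = kk 1 * kk 0 := raag_comm P4 0 1 (p4_adj 0 1 rfl)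
theorem c12 : kk 1 * kk 2 = kk 2 * kk 1 := raag_comm P4 1 2 (p4_adj 1 2 rfl)
theorem c23 : kk 2 * kk 3 = kk 3 * kk 2 := raag_comm P4 2 3 (p4_adj 2 3 rfl)

/-- the class of a letter -/
def cls (e : Lt) : ℕ := if e.val < 32 then e.val / 8 else e.val - 28

theorem thv_cls (e f : Lt) (h : cls e = cls f) : thv e = thv f := by
  have key : ∀ e f : Lt, cls e = cls f → (e.val < 8 ↔ f.val < 8) ∧ (e.val < 16 ↔ f.val < 16) ∧
      (e.val < 24 ↔ f.val < 24) ∧ (e.val < 32 ↔ f.val < 32) ∧ (e.val = 32 ↔ f.val = 32) ∧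
      (e.val = 33 ↔ f.val = 33) ∧ (e.val = 34 ↔ f.val = 34) := by
    intro e f h
    have he := e.2
    have hf := f.2
    unfold cls at h
    split_ifs at h <;> omega
  obtain ⟨h1, h2, h3, h4, h5, h6, h7⟩ := key e f h
  unfold thv
  simp only [h1, h2, h3, h4, h5, h6, h7]

theorem sq_cases : ∀ t ∈ sqs, (cls t.1 = cls t.2.1 ∧ cls t.2.2.1 = cls t.2.2.2) ∨
    (cls t.1 = cls t.2.2.2 ∧ cls t.2.1 = cls t.2.2.1) ∨ t = (13, 3, 33, 32) ∨
    t = (13, 32, 33, 3) ∨ t = (19, 13, 34, 33) ∨ t = (19, 33, 34, 13) ∨ t = (29, 19, 35, 34) ∨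
    t = (29, 34, 35, 19) := by
  decide

theorem v3 : thv 3 = 1 := rfl
theorem v13 : thv 13 = kk 0 := rfl
theorem v19 : thv 19 = kk 2 * (kk 1)⁻¹ * kk 0 := rfl
theorem v29 : thv 29 = kk 3 * kk 2 * (kk 1)⁻¹ * kk 0 := rfl
theorem v32 : thv 32 = (kk 1)⁻¹ * (kk 1)⁻¹ * kk 0 * kk 0 := rfl
theorem v33 : thv 33 = (kk 1)⁻¹ * (kk 1)⁻¹ * kk 0 := rfl
theorem v34 : thv 34 = (kk 2)⁻¹ * (kk 1)⁻¹ * kk 0 := rfl
theorem v35 : thv 35 = (kk 3)⁻¹ * (kk 2)⁻¹ * (kk 1)⁻¹ * kk 0 := rfl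

section
variable {K : Type} [Group K] (a t u g : K) (h1 : a * t = t * a) (h2 : t * u = u * t)
  (h3 : u * g = g * u)

theorem w1 (h1 : a * t = t * a) :
    a * (1 : K)⁻¹ * (t⁻¹ * t⁻¹ * a) * (t⁻¹ * t⁻¹ * a * a)⁻¹ = 1 := by
  have e : a * (1 : K)⁻¹ * (t⁻¹ * t⁻¹ * a) * (t⁻¹ * t⁻¹ * a * a)⁻¹ =
      a * ((t * t)⁻¹ * a⁻¹) * (t * t) := by simp [mul_assoc]
  have c : Commute a (t * t) := Commute.mul_right h1 h1
  have c2 : (t * t)⁻¹ * a⁻¹ = a⁻¹ * (t * t)⁻¹ := by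
    rw [← mul_inv_rev, ← mul_inv_rev, c.eq]
  rw [e, c2]
  group

theorem w2 : a * (t⁻¹ * t⁻¹ * a * a)⁻¹ * (t⁻¹ * t⁻¹ * a) * (1 : K)⁻¹ = 1 := by
  group

theorem w3 (h2 : t * u = u * t) : u * t⁻¹ * a * a⁻¹ * (u⁻¹ * t⁻¹ * a) * (t⁻¹ * t⁻¹ * a)⁻¹ = 1 := by
  have e : u * t⁻¹ * a * a⁻¹ * (u⁻¹ * t⁻¹ * a) * (t⁻¹ * t⁻¹ * a)⁻¹ = u * (t⁻¹ * u⁻¹) * t := by group
  have c2 : t⁻¹ * u⁻¹ = u⁻¹ * t⁻¹ := by
    rw [← mul_inv_rev, ← mul_inv_rev, h2]
  rw [e, c2]
  group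

theorem w4 (h2 : t * u = u * t) : u * t⁻¹ * a * (t⁻¹ * t⁻¹ * a)⁻¹ * (u⁻¹ * t⁻¹ * a) * a⁻¹ = 1 := by
  have e : u * t⁻¹ * a * (t⁻¹ * t⁻¹ * a)⁻¹ * (u⁻¹ * t⁻¹ * a) * a⁻¹ = (u * t) * (t * u)⁻¹ := by group
  rw [e, h2]
  group

theorem w5 : g * u * t⁻¹ * a * (u * t⁻¹ * a)⁻¹ * (g⁻¹ * u⁻¹ * t⁻¹ * a) * (u⁻¹ * t⁻¹ * a)⁻¹ = 1 := by
  group

theorem w6 (h3 : u * g = g * u) : g * u * t⁻¹ * a * (u⁻¹ * t⁻¹ * a)⁻¹ * (g⁻¹ * u⁻¹ * t⁻¹ * a) *
    (u * t⁻¹ * a)⁻¹ = 1 := by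
  have e : g * u * t⁻¹ * a * (u⁻¹ * t⁻¹ * a)⁻¹ * (g⁻¹ * u⁻¹ * t⁻¹ * a) * (u * t⁻¹ * a)⁻¹ =
      g * u * (u * (u * g)⁻¹) * u⁻¹ := by group
  rw [e, h3, mul_inv_rev]
  have c : u * (u⁻¹ * g⁻¹) = g⁻¹ := by group
  rw [c]
  have c3 : g * u * g⁻¹ = u := by rw [← h3]; group
  rw [c3]
  group

end

theorem hrel : ∀ r ∈ (↑relF : Set (FreeGroup Lt)), FreeGroup.lift thv r = 1 := by
  intro r hr
  have hr' : r ∈ relF := hr
  unfold relF at hr'
  rw [Finset.mem_insert, List.mem_toFinset, List.mem_map] at hr'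
  rcases hr' with rfl | ⟨t, ht, rfl⟩
  · rw [FreeGroup.lift_apply_of, v3]
  · unfold sqRel
    simp only [map_mul, map_inv, FreeGroup.lift_apply_of]
    rcases sq_cases t ht with h | h | h | h | h | h | h | h
    · rw [thv_cls _ _ h.1, thv_cls _ _ h.2]
      group
    · rw [thv_cls _ _ h.1, thv_cls _ _ h.2]
      group
    · subst h
      simp only [v13, v3, v33, v32]
      exact w1 _ _ c01
    · subst h
      simp only [v13, v3, v33, v32]
      exact w2 _ _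
    · subst h
      simp only [v13, v19, v33, v34]
      exact w3 _ _ _ c12
    · subst h
      simp only [v13, v19, v33, v34]
      exact w4 _ _ _ c12
    · subst h
      simp only [v19, v29, v34, v35]
      exact w5 _ _ _ _
    · subst h
      simp only [v19, v29, v34, v35]
      exact w6 _ _ _ _ c23

/-- the map -/
def theta : G →* K4 := PresentedGroup.toGroup (rels := (↑relF : Set (FreeGroup Lt))) (f := thv) hrel

theorem theta_gl (e : Lt) : theta (gl e) = thv e := PresentedGroup.toGroup.of hrel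

/-! ### Free subgroup -/

abbrev F3 : Type := FreeGroup (Fin 3)

def fv1 : Fin 3 → F3 :=
  ![FreeGroup.of 0, FreeGroup.of 1, (FreeGroup.of 1)⁻¹ * FreeGroup.of 2 * FreeGroup.of 1]

def fv2 : Fin 3 → F3 :=
  ![FreeGroup.of 0, FreeGroup.of 1, FreeGroup.of 1 * FreeGroup.of 2 * (FreeGroup.of 1)⁻¹]

def phi1 : F3 →* F3 := FreeGroup.lift fv1
def phi2 : F3 →* F3 := FreeGroup.lift fv2

theorem p10 : phi1 (FreeGroup.of 0) = FreeGroup.of 0 := FreeGroup.lift_apply_of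
theorem p11 : phi1 (FreeGroup.of 1) = FreeGroup.of 1 := FreeGroup.lift_apply_of
theorem p12 : phi1 (FreeGroup.of 2) = (FreeGroup.of 1)⁻¹ * FreeGroup.of 2 * FreeGroup.of 1 :=
  FreeGroup.lift_apply_of
theorem p20 : phi2 (FreeGroup.of 0) = FreeGroup.of 0 := FreeGroup.lift_apply_of
theorem p21 : phi2 (FreeGroup.of 1) = FreeGroup.of 1 := FreeGroup.lift_apply_of
theorem p22 : phi2 (FreeGroup.of 2) = FreeGroup.of 1 * FreeGroup.of 2 * (FreeGroup.of 1)⁻¹ :=
  FreeGroup.lift_apply_of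

theorem f3_ext {K : Type} [Group K] (f g : F3 →* K) (h0 : f (FreeGroup.of 0) = g (FreeGroup.of 0))
    (h1 : f (FreeGroup.of 1) = g (FreeGroup.of 1)) (h2 : f (FreeGroup.of 2) = g (FreeGroup.of 2)) :
    f = g := by
  apply FreeGroup.ext_hom
  intro i
  fin_cases i
  · exact h0
  · exact h1
  · exact h2

def phi : MulAut F3 := MonoidHom.toMulEquiv phi1 phi2
  (by
    apply f3_ext
    · rw [MonoidHom.comp_apply, p10, p20]; rfl
    · rw [MonoidHom.comp_apply, p11, p21]; rfl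
    · rw [MonoidHom.comp_apply, p12, map_mul, map_mul, map_inv, p21, p22, MonoidHom.id_apply]
      group)
  (by
    apply f3_ext
    · rw [MonoidHom.comp_apply, p20, p10]; rfl
    · rw [MonoidHom.comp_apply, p21, p11]; rfl
    · rw [MonoidHom.comp_apply, p22, map_mul, map_mul, map_inv, p11, p12, MonoidHom.id_apply]
      group)

theorem phi_apply (x : F3) : phi x = phi1 x := rfl

def psi : Multiplicative ℤ →* MulAut F3 := zpowersHom _ phi

theorem psi_one : psi (Multiplicative.ofAdd 1) = phi := by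
  unfold psi
  rw [zpowersHom_apply]
  simp

abbrev Ga : Type := F3 ⋊[psi] Multiplicative ℤ

def tt : Ga := SemidirectProduct.inr (Multiplicative.ofAdd 1)

theorem tt_conj (x : F3) : tt * SemidirectProduct.inl x = SemidirectProduct.inl (phi1 x) * tt := by
  have h := SemidirectProduct.inl_aut (φ := psi) (Multiplicative.ofAdd 1) x
  rw [psi_one, phi_apply, map_inv] at h
  rw [h]
  unfold tt
  group

def kv : Fin 4 → Ga := ![SemidirectProduct.inl (FreeGroup.of 0), tt,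
  SemidirectProduct.inl (FreeGroup.of 1) * tt, SemidirectProduct.inl (FreeGroup.of 2)]

theorem k01 : kv 0 * kv 1 = kv 1 * kv 0 := by
  show SemidirectProduct.inl (FreeGroup.of 0) * tt = tt * SemidirectProduct.inl (FreeGroup.of 0)
  rw [tt_conj, p10]

theorem k12 : kv 1 * kv 2 = kv 2 * kv 1 := by
  show tt * (SemidirectProduct.inl (FreeGroup.of 1) * tt) =
    SemidirectProduct.inl (FreeGroup.of 1) * tt * tt
  rw [← mul_assoc, tt_conj, p11]

theorem k23 : kv 2 * kv 3 = kv 3 * kv 2 := by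
  show SemidirectProduct.inl (FreeGroup.of 1) * tt * SemidirectProduct.inl (FreeGroup.of 2) =
    SemidirectProduct.inl (FreeGroup.of 2) * (SemidirectProduct.inl (FreeGroup.of 1) * tt)
  rw [mul_assoc, tt_conj, p12, ← mul_assoc, ← mul_assoc, ← map_mul, ← map_mul]
  congr 2
  group

theorem kv_comm (i j : Fin 4) (h : i.val + 1 = j.val) : kv i * kv j = kv j * kv i := by
  have hc : (i = 0 ∧ j = 1) ∨ (i = 1 ∧ j = 2) ∨ (i = 2 ∧ j = 3) := by
    revert i j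
    decide
  rcases hc with ⟨rfl, rfl⟩ | ⟨rfl, rfl⟩ | ⟨rfl, rfl⟩
  · exact k01
  · exact k12
  · exact k23

theorem krel : ∀ r ∈ raagRels P4, FreeGroup.lift kv r = 1 := by
  rintro r ⟨i, j, hij, rfl⟩
  unfold P4 at hij
  rw [SimpleGraph.fromRel_adj] at hij
  simp only [map_mul, map_inv, FreeGroup.lift_apply_of]
  rcases hij.2 with h | h
  · rw [kv_comm i j h]
    group
  · rw [← kv_comm j i h]
    group

def kappa : K4 →* Ga := PresentedGroup.toGroup (rels := raagRels P4) (f := kv) krel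

theorem kappa_kk (i : Fin 4) : kappa (kk i) = kv i := PresentedGroup.toGroup.of krel

def jj : F3 →* G := FreeGroup.lift ![gl 13, gl 19 * (gl 13)⁻¹, gl 29 * (gl 19)⁻¹]

theorem j0 : jj (FreeGroup.of 0) = gl 13 := FreeGroup.lift_apply_of
theorem j1 : jj (FreeGroup.of 1) = gl 19 * (gl 13)⁻¹ := FreeGroup.lift_apply_of
theorem j2 : jj (FreeGroup.of 2) = gl 29 * (gl 19)⁻¹ := FreeGroup.lift_apply_of

theorem comp_eq : (kappa.comp theta).comp jj = SemidirectProduct.inl := by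
  apply f3_ext
  · rw [MonoidHom.comp_apply, MonoidHom.comp_apply, j0, theta_gl, v13, kappa_kk]
    rfl
  · rw [MonoidHom.comp_apply, MonoidHom.comp_apply, j1, map_mul, map_inv, theta_gl, theta_gl, v13,
      v19]
    have e : kk 2 * (kk 1)⁻¹ * kk 0 * (kk 0)⁻¹ = kk 2 * (kk 1)⁻¹ := by group
    rw [e, map_mul, map_inv, kappa_kk, kappa_kk]
    show SemidirectProduct.inl (FreeGroup.of 1) * tt * tt⁻¹ = SemidirectProduct.inl (FreeGroup.of 1)
    group
  · rw [MonoidHom.comp_apply, MonoidHom.comp_apply, j2, map_mul, map_inv, theta_gl, theta_gl, v29,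
      v19]
    have e : kk 3 * kk 2 * (kk 1)⁻¹ * kk 0 * (kk 2 * (kk 1)⁻¹ * kk 0)⁻¹ = kk 3 := by group
    rw [e, kappa_kk]
    rfl

theorem gl3 : gl 3 = 1 := by
  apply PresentedGroup.one_of_mem
  show FreeGroup.of 3 ∈ relF
  unfold relF
  exact Finset.mem_insert_self _ _

theorem F1_le : F1 ≤ jj.range := by
  unfold F1
  rw [Subgroup.closure_le]
  rintro g ⟨c, rfl⟩
  have hc : c = 0 ∨ c = 1 ∨ c = 2 ∨ c = 3 := by
    revert c
    decide
  rcases hc with rfl | rfl | rfl | rfl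
  · show gl 3 ∈ jj.range
    rw [gl3]
    exact one_mem _
  · show gl 13 ∈ jj.range
    exact ⟨FreeGroup.of 0, j0⟩
  · show gl 19 ∈ jj.range
    refine ⟨FreeGroup.of 1 * FreeGroup.of 0, ?_⟩
    rw [map_mul, j0, j1]
    group
  · show gl 29 ∈ jj.range
    refine ⟨FreeGroup.of 2 * (FreeGroup.of 1 * FreeGroup.of 0), ?_⟩
    rw [map_mul, map_mul, j0, j1, j2]
    group

/-- the map to the group of the path is injective on `F1` -/
theorem f3 : Pool.Agent.W387.RA.StmF3 := by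
  refine ⟨theta, theta_gl, ?_⟩
  intro f hf h
  obtain ⟨x, rfl⟩ := F1_le hf
  have h2 := DFunLike.congr_fun comp_eq x
  rw [MonoidHom.comp_apply, MonoidHom.comp_apply, h, map_one] at h2
  have h3 : x = 1 := by
    apply SemidirectProduct.inl_injective (φ := psi)
    rw [← h2, map_one]
  rw [h3, map_one]

end Pool.Agent.W168.RA
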